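import Pool.Agent.H95.FA.One

/-!
# Project FA: assembly
-/

set_option autoImplicit false

namespace Pool.Agent.H95.FA

open Finset Filter Topology
open Pool.Agent.H95.FB
open Pool.Agent.H61.FA (val branch gg gg_ne gg_alg mem_sums alg_five)
open Real (goldenRatio goldenConj)

theorem pair1 (hLOW : S_LOW) (hNRM : S_NRM) (hDEN : S_DEN) (hCUR : S_CUR) (hEXP : S_EXP) (hSUB : S_SUB)
    {P : MvPolynomial (Fin 2) ℤ} (hP : P ≠ 0) {κ : ℝ} {c : ℤ} (hκ : IsIntegral ℤ κ) (hκ0 : κ ≠ 0) (hc : c ≠ 0) :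
    ∀ᶠ A : ℕ in atTop, ∀ n M : ℕ, Adm A n M → κ * M = goldenRatio ^ n - c * (goldenRatio ^ n)⁻¹ →
      (M : ℝ) ≤ goldenRatio ^ (n + 2) →
      ∀ x : ℤ, MvPolynomial.eval ![x, (M : ℤ)] P = 0 → (M : ℤ) ∣ x ∨ Int.gcd x M = 1 := by
  classical
  have hg0 : 0 < goldenRatio := Real.goldenRatio_pos
  have hg1 : 1 < goldenRatio := Real.one_lt_goldenRatio
  have hκalg : IsAlgebraic ℚ κ := (hκ.tower_top (A := ℚ)).isAlgebraic
  have hcalg : IsAlgebraic ℚ (c : ℝ) := by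
    have := isAlgebraic_algebraMap (R := ℚ) (A := ℝ) (c : ℚ)
    simpa using this
  obtain ⟨q, N, m, hq, F, hFf, hFa, hbr⟩ := branch hCUR hEXP hSUB hP hκalg hcalg hκ0
  obtain ⟨n₀, hn₀⟩ := eventually_atTop.1 hbr
  have hq0 : (0 : ℝ) < q := by exact_mod_cast hq
  obtain ⟨ε₁, hε₁⟩ : ∃ ε₁ : ℝ, ε₁ = 1 / (16 * (q : ℝ)) := ⟨_, rfl⟩
  have hε₁0 : 0 < ε₁ := by
    rw [hε₁]
    positivity
  have h1 : ∀ᶠ A : ℕ in atTop, ∀ α ∈ F, ∀ n M : ℕ, Adm A n M → ∀ x : ℤ, (x : ℝ) = val N α (n / q) →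
      (M : ℤ) ∣ x ∨ (Int.gcd x M : ℝ) < (M : ℝ) ^ ε₁ := by
    rw [eventually_all_finite hFf]
    intro α hα
    obtain ⟨P₁, hP₁⟩ := any_k m (gg α) (gg_ne α) (gg_alg (hFa α hα)) (N + m + 1) ε₁ hε₁0
    filter_upwards [eventually_ge_atTop P₁] with A hA n M hadm x hx
    have hn := hadm.lt
    exact hP₁ n M (hadm.mono hA) x (mem_sums N α n (n / q) (by omega) (Nat.div_le_self _ _) x hx)
  have h2 : ∀ᶠ A : ℕ in atTop, ∀ y ∈ F ×ˢ Set.Iio q, ∀ n M : ℕ, Adm A n M → n % q = y.2 →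
      κ * M = goldenRatio ^ n - c * (goldenRatio ^ n)⁻¹ → (M : ℝ) ≤ goldenRatio ^ (n + 2) →
      ∀ x : ℤ, (x : ℝ) = val N y.1 (n / q) → (Int.gcd x M : ℝ) < (M : ℝ) ^ ε₁ → Int.gcd x M = 1 := by
    rw [eventually_all_finite (hFf.prod (Set.finite_Iio q))]
    rintro ⟨α, i⟩ ⟨hα, -⟩
    obtain ⟨B, hB, c₀, hc₀, s₁, hs₁⟩ := gcd_alt hLOW hNRM hDEN q i N m hq α (hFa α hα) κ hκ hκ0 c hc
    obtain ⟨P₁, hP₁⟩ := Adm.primes B
    have ht : Tendsto (fun s : ℕ => c₀ * goldenRatio ^ ((s : ℝ) / 4)) atTop atTop := by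
      refine Tendsto.const_mul_atTop hc₀ ?_
      exact (tendsto_rpow_atTop_of_base_gt_one goldenRatio hg1).comp
        (Tendsto.atTop_div_const (by norm_num) tendsto_natCast_atTop_atTop)
    obtain ⟨s₂, hs₂⟩ := eventually_atTop.1 (ht.eventually_ge_atTop 1)
    filter_upwards [eventually_ge_atTop P₁, eventually_ge_atTop (q * s₁), eventually_ge_atTop (q * s₂),
      eventually_ge_atTop q, eventually_ge_atTop 3] with A hA hA2 hA3 hA4 hA5 n M hadm hni hM hM2 x hx hlt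
    have hn := hadm.lt
    have hM1 : 1 < M := hadm.one_lt hA5
    have hMr : (1 : ℝ) < M := by exact_mod_cast hM1
    have hs1 : s₁ ≤ n / q := by
      rw [Nat.le_div_iff_mul_le (by omega)]
      linarith [mul_comm q s₁]
    have hs2 : s₂ ≤ n / q := by
      rw [Nat.le_div_iff_mul_le (by omega)]
      linarith [mul_comm q s₂]
    have hs3 : 1 ≤ n / q := by
      rw [Nat.le_div_iff_mul_le (by omega)]
      omega
    have hnq : q * (n / q) + i = n := by
      rw [← hni]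
      exact Nat.div_add_mod n q
    rcases hs₁ (n / q) hs1 x M (by omega) hx (by rw [hnq]; exact hM) with h3 | h3
    · by_contra hne
      have h5 := Nat.minFac_prime hne
      have h6 : (Int.gcd x M).minFac ∣ M := (Nat.minFac_dvd _).trans (by
        have := Int.gcd_dvd_right x (M : ℤ)
        exact_mod_cast this)
      have h7 := hP₁ n M (hadm.mono hA) _ h5 h6
      have h8 := Nat.le_of_dvd (by omega) ((Nat.minFac_dvd _).trans h3)
      omega
    · exfalso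
      have h4 : (M : ℝ) ^ ε₁ ≤ goldenRatio ^ (((n / q : ℕ) : ℝ) / 4) := by
        calc (M : ℝ) ^ ε₁ ≤ (goldenRatio ^ (n + 2)) ^ ε₁ := Real.rpow_le_rpow (by positivity) hM2 hε₁0.le
          _ = goldenRatio ^ (((n + 2 : ℕ) : ℝ) * ε₁) := by
              rw [Real.rpow_mul hg0.le, Real.rpow_natCast]
          _ ≤ goldenRatio ^ (((n / q : ℕ) : ℝ) / 4) := by
              refine Real.rpow_le_rpow_of_exponent_le hg1.le ?_
              have h4 : n + 2 ≤ 4 * (q * (n / q)) := by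
                have h5 := Nat.div_add_mod n q
                have h6 : n % q < q := Nat.mod_lt _ (by omega)
                have h7 : q * 1 ≤ q * (n / q) := Nat.mul_le_mul_left q hs3
                omega
              have h5 : ((n + 2 : ℕ) : ℝ) ≤ 4 * (q * ((n / q : ℕ) : ℝ)) := by exact_mod_cast h4
              rw [hε₁, mul_one_div, div_le_div_iff₀ (by positivity) (by norm_num)]
              linarith
      have h5 := hs₂ (n / q) hs2
      have h6 : goldenRatio ^ (((n / q : ℕ) : ℝ) / 4) ≤ c₀ * goldenRatio ^ (((n / q : ℕ) : ℝ) / 2) := by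
        have e : goldenRatio ^ (((n / q : ℕ) : ℝ) / 2) =
            goldenRatio ^ (((n / q : ℕ) : ℝ) / 4) * goldenRatio ^ (((n / q : ℕ) : ℝ) / 4) := by
          rw [← Real.rpow_add hg0]
          congr 1
          ring
        rw [e, ← mul_assoc]
        exact le_mul_of_one_le_left (by positivity) h5
      linarith
  filter_upwards [h1, h2, eventually_ge_atTop n₀] with A hA1 hA2 hA3 n M hadm hM hM2 x hx
  have hn := hadm.lt
  obtain ⟨α, hα, hxα⟩ := hn₀ n (by omega) x M (by exact_mod_cast hM) hx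
  rcases hA1 α hα n M hadm x hxα with h3 | h3
  · exact Or.inl h3
  · exact Or.inr (hA2 (α, n % q) ⟨hα, Nat.mod_lt _ hq⟩ n M hadm rfl hM hM2 x hxα h3)

/-- **Theorem.** -/
theorem fin1 (hLOW : S_LOW) (hNRM : S_NRM) (hDEN : S_DEN) (hCUR : S_CUR) (hEXP : S_EXP) (hSUB : S_SUB) (hSIZ : S_SIZ)
    (P : MvPolynomial (Fin 2) ℤ) (hP : P ≠ 0) : ∃ A : ℕ, ∀ n M : ℕ, Adm A n M →
      ∀ x : ℤ, MvPolynomial.eval ![x, (M : ℤ)] P = 0 → (M : ℤ) ∣ x ∨ Int.gcd x M = 1 := by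
  have i5 : IsIntegral ℤ (√5 : ℝ) := by
    refine IsIntegral.of_pow (n := 2) (by norm_num) ?_
    rw [Real.sq_sqrt (by norm_num)]
    have := isIntegral_algebraMap (R := ℤ) (A := ℝ) (x := 5)
    simpa using this
  have h1 := pair1 hLOW hNRM hDEN hCUR hEXP hSUB hP (κ := √5) (c := -1) i5 (by positivity) (by norm_num)
  have h2 := pair1 hLOW hNRM hDEN hCUR hEXP hSUB hP (κ := 1) (c := 1) isIntegral_one one_ne_zero (by norm_num)
  have h3 := pair1 hLOW hNRM hDEN hCUR hEXP hSUB hP (κ := 1) (c := -1) isIntegral_one one_ne_zero (by norm_num)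
  obtain ⟨A, ⟨⟨hA1, hA2⟩, hA3⟩, hA4⟩ := (((h1.and h2).and h3).and (eventually_ge_atTop 3)).exists
  refine ⟨A, fun n M hadm => ?_⟩
  obtain ⟨h5, h6⟩ := hSIZ n M (hadm.mono hA4)
  rcases h5 with h5 | h5 | h5
  · exact hA1 n M hadm (by push_cast; exact h5) h6
  · exact hA2 n M hadm (by push_cast; exact h5) h6
  · exact hA3 n M hadm (by push_cast; exact h5) h6

end Pool.Agent.H95.FA
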