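import Pool.Agent.H95.FA.SubA

/-!
# Project FA: module SUB
-/

set_option autoImplicit false

namespace Pool.Agent.H95.FA

open Finset Filter Topology
open NumberField IsDedekindDomain
open Pool.Agent.Y742.SF Pool.Agent.Y742.DI Pool.Agent.Y742.AR
open Pool.Agent.H95.FB
open Real (goldenRatio)

theorem gold_tendsto {α : Type} {𝓕 : Filter α} (s : α → ℕ) (hs : Tendsto s 𝓕 atTop) :
    Tendsto (fun t => goldenRatio ^ s t) 𝓕 atTop :=
  (tendsto_pow_atTop_atTop_of_one_lt Real.one_lt_goldenRatio).comp hs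

/-- small Laurent sums vanish -/
theorem small_zero (g : ℝ) (hg1 : 1 < g) {m : ℕ} (γ : Fin m → ℂ) (N J : ℕ) (hJ : 1 ≤ J) (hm : m ≤ N + J) (C : ℝ) (𝓕 : Filter ℕ) [𝓕.NeBot]
    (s : ℕ → ℕ) (hs : Tendsto s 𝓕 atTop)
    (h : ∀ᶠ t in 𝓕, ‖∑ j : Fin m, γ j * ((g : ℝ) : ℂ) ^ ((s t : ℤ) * ((N : ℤ) - (j : ℕ)))‖ ≤
      C * (g ^ (J * s t))⁻¹) : ∀ j, γ j = 0 := by
  classical
  have hg0 : 0 < g := by linarith
  have hgC : ((g : ℝ) : ℂ) ≠ 0 := by exact_mod_cast hg0.ne'
  obtain ⟨p, hp⟩ : ∃ p : Polynomial ℂ, p = ∑ j : Fin m, Polynomial.C (γ j) * Polynomial.X ^ (N + J - 1 - (j : ℕ)) := ⟨_, rfl⟩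
  have hT : Tendsto (fun t => g ^ s t) 𝓕 atTop := (tendsto_pow_atTop_atTop_of_one_lt hg1).comp hs
  have heval : ∀ t, ‖p.eval ((((g ^ s t : ℝ)) : ℂ))‖ = (g ^ s t) ^ (J - 1) *
      ‖∑ j : Fin m, γ j * ((g : ℝ) : ℂ) ^ ((s t : ℤ) * ((N : ℤ) - (j : ℕ)))‖ := by
    intro t
    have e1 : p.eval ((((g ^ s t : ℝ)) : ℂ)) = (((g ^ s t : ℝ)) : ℂ) ^ (J - 1) *
        ∑ j : Fin m, γ j * ((g : ℝ) : ℂ) ^ ((s t : ℤ) * ((N : ℤ) - (j : ℕ))) := by
      rw [hp, Polynomial.eval_finsetSum, Finset.mul_sum]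
      refine Finset.sum_congr rfl fun j _ => ?_
      rw [Polynomial.eval_mul, Polynomial.eval_C, Polynomial.eval_pow, Polynomial.eval_X]
      push_cast
      have e2 : (((g : ℝ) : ℂ) ^ s t) ^ (N + J - 1 - (j : ℕ)) =
          (((g : ℝ) : ℂ) ^ s t) ^ (J - 1) * ((g : ℝ) : ℂ) ^ ((s t : ℤ) * ((N : ℤ) - (j : ℕ))) := by
        rw [← pow_mul, ← pow_mul, ← zpow_natCast, ← zpow_natCast, ← zpow_add₀ hgC]
        congr 1
        have hj := j.2
        have h1 : ((N + J - 1 - (j : ℕ) : ℕ) : ℤ) = N + J - 1 - (j : ℕ) := by omega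
        have h2 : ((J - 1 : ℕ) : ℤ) = J - 1 := by omega
        rw [Nat.cast_mul, Nat.cast_mul, h1, h2]
        ring
      rw [e2]
      ring
    rw [e1, norm_mul, norm_pow, Complex.norm_real, Real.norm_of_nonneg (by positivity)]
  have hz : Tendsto (fun t => ‖p.eval ((((g ^ s t : ℝ)) : ℂ))‖) 𝓕 (𝓝 0) := by
    have h1 : Tendsto (fun t => C * (g ^ s t)⁻¹) 𝓕 (𝓝 0) := by
      simpa using hT.inv_tendsto_atTop.const_mul C
    refine squeeze_zero' (Eventually.of_forall fun t => norm_nonneg _) ?_ h1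
    filter_upwards [h] with t ht
    rw [heval]
    refine (mul_le_mul_of_nonneg_left ht (by positivity)).trans (le_of_eq ?_)
    have e3 : g ^ (J * s t) = (g ^ s t) ^ (J - 1) * g ^ s t := by
      rw [← pow_succ, Nat.sub_add_cancel hJ, ← pow_mul, mul_comm]
    rw [e3]
    have h2 : g ^ s t ≠ 0 := by positivity
    field_simp
  have hp0 : p = 0 := by
    have h1 : ¬ 0 < p.degree := by
      intro hd
      have h2 := Polynomial.tendsto_norm_atTop p hd (l := 𝓕) (z := fun t => (((g ^ s t : ℝ)) : ℂ)) (by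
        refine hT.congr fun t => ?_
        rw [Complex.norm_real, Real.norm_of_nonneg (by positivity)])
      exact not_tendsto_nhds_of_tendsto_atTop h2 0 hz
    have h2 := Polynomial.eq_C_of_degree_le_zero (not_lt.1 h1)
    rw [h2] at hz
    simp only [Polynomial.eval_C] at hz
    have h3 := tendsto_nhds_unique hz tendsto_const_nhds
    rw [h2, norm_eq_zero.1 h3.symm, Polynomial.C_0]
  intro j
  have h1 : p.coeff (N + J - 1 - (j : ℕ)) = γ j := by
    rw [hp, Polynomial.finsetSum_coeff]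
    rw [Finset.sum_eq_single j]
    · simp
    · intro b _ hb
      rw [Polynomial.coeff_C_mul, Polynomial.coeff_X_pow, if_neg, mul_zero]
      intro he
      apply hb
      ext
      have := b.2
      have := j.2
      omega
    · intro h
      exact absurd (Finset.mem_univ _) h
  rw [← h1, hp0, Polynomial.coeff_zero]

theorem t_SUB : S_SUB := by
  classical
  intro m α N J C hα hNJ hm hC
  by_contra hcon
  push Not at hcon
  choose s hs x hx1 hx2 using hcon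
  obtain ⟨𝒰, h𝒰⟩ : ∃ 𝒰 : Ultrafilter ℕ, 𝒰 = Filter.hyperfilter ℕ := ⟨_, rfl⟩
  have hle : (𝒰 : Filter ℕ) ≤ atTop := by
    rw [h𝒰]
    exact Nat.hyperfilter_le_atTop
  have hsT : Tendsto s (𝒰 : Filter ℕ) atTop := (tendsto_atTop_mono hs tendsto_id).mono_left hle
  have hg0 : 0 < goldenRatio := Real.goldenRatio_pos
  have hg1 : 1 < goldenRatio := Real.one_lt_goldenRatio
  have hgC : ((goldenRatio : ℝ) : ℂ) ≠ 0 := by exact_mod_cast hg0.ne'
  obtain ⟨L, hfd, hgal, hL⟩ := Pool.Agent.N754.LT.galois_sub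
    (Finset.univ.image (fun j => ((α j : ℝ) : ℂ)) ∪ {((√5 : ℝ) : ℂ), Complex.I}) (by
      intro y hy
      rw [Finset.mem_union, Finset.mem_image] at hy
      rcases hy with ⟨j, -, rfl⟩ | hy
      · exact (hα j).algebraMap
      · simp only [Finset.mem_insert, Finset.mem_singleton] at hy
        rcases hy with rfl | rfl
        · refine alg_of_pow (n := 2) (by norm_num) ?_
          rw [← Complex.ofReal_pow, Real.sq_sqrt (by norm_num)]
          have : (((5 : ℝ)) : ℂ) = algebraMap ℚ ℂ 5 := by simp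
          rw [this]
          exact isAlgebraic_algebraMap _
        · refine alg_of_pow (n := 2) (by norm_num) ?_
          rw [Complex.I_sq]
          exact (isAlgebraic_one).neg)
  have hαL : ∀ j, ((α j : ℝ) : ℂ) ∈ L := fun j => hL _ (by simp)
  have hs5L : ((√5 : ℝ) : ℂ) ∈ L := hL _ (by simp)
  have hIL : Complex.I ∈ L := hL _ (by simp)
  have : NumberField L := ⟨⟩
  obtain ⟨s5, hs5⟩ : ∃ x : L, (x : ℂ) = ((√5 : ℝ) : ℂ) := ⟨⟨_, hs5L⟩, rfl⟩
  obtain ⟨iL, hiL⟩ : ∃ x : L, (x : ℂ) = Complex.I := ⟨⟨_, hIL⟩, rfl⟩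
  obtain ⟨αL, hαL'⟩ : ∃ x : Fin m → L, ∀ j, (x j : ℂ) = ((α j : ℝ) : ℂ) := ⟨fun j => ⟨_, hαL j⟩, fun j => rfl⟩
  obtain ⟨τ₀, hτ₀⟩ := exists_s5 hs5
  obtain ⟨ph, hph⟩ : ∃ x : L, x = (1 + s5) / 2 := ⟨_, rfl⟩
  have h5 : 2 * ph = 1 + s5 := by
    rw [hph]
    ring
  have hphC : (ph : ℂ) = ((goldenRatio : ℝ) : ℂ) := by
    rw [hph, phi_eq, ← hs5]
    push_cast
    rfl
  have hph2 : ph ^ 2 = ph + 1 := by
    apply Subtype.ext
    push_cast
    rw [hphC]
    exact_mod_cast Real.goldenRatio_sq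
  have hph0 : ph ≠ 0 := by
    rintro rfl
    exact hgC (by rw [← hphC]; rfl)
  obtain ⟨D, -⟩ := exists_PD (K := L) ⟨iL, by
    apply Subtype.ext
    push_cast
    rw [hiL, Complex.I_sq]⟩ ∅ Set.finite_empty
  obtain ⟨ι, hι⟩ : ∃ ι : L →+* ℂ, ∀ y, ι y = (y : ℂ) := ⟨algebraMap L ℂ, fun y => rfl⟩
  have hιph : ι ph = ((goldenRatio : ℝ) : ℂ) := by rw [hι, hphC]
  -- the key values
  have hval : ∀ t, ι ((x t : L) - ∑ j : Fin m, αL j * ph ^ ((s t : ℤ) * ((N : ℤ) - (j : ℕ)))) =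
      (((x t : ℝ) - ∑ j : Fin m, goldenRatio ^ ((s t : ℤ) * ((N : ℤ) - (j : ℕ))) * α j : ℝ) : ℂ) := by
    intro t
    rw [map_sub, map_intCast, map_sum, Complex.ofReal_sub, Complex.ofReal_intCast, Complex.ofReal_sum]
    congr 1
    refine Finset.sum_congr rfl fun j _ => ?_
    rw [map_mul, map_zpow₀, hιph, hι, hαL', Complex.ofReal_mul, Complex.ofReal_zpow, mul_comm]
  have hpw : ∀ t, goldenRatio ^ ((J : ℤ) * (s t : ℕ)) = goldenRatio ^ (J * s t) := by
    intro t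
    rw [← zpow_natCast]
    push_cast
    rfl
  have hne : ∀ t, (x t : L) - ∑ j : Fin m, αL j * ph ^ ((s t : ℤ) * ((N : ℤ) - (j : ℕ))) ≠ 0 := by
    intro t h
    have h1 := hval t
    rw [h, map_zero] at h1
    have h2 := Complex.ofReal_eq_zero.1 h1.symm
    exact hx2 t (sub_eq_zero.1 h2)
  have hsm : ∀ t, ‖ι ((x t : L) - ∑ j : Fin m, αL j * ph ^ ((s t : ℤ) * ((N : ℤ) - (j : ℕ))))‖ ≤
      C * (goldenRatio ^ (J * s t))⁻¹ := by
    intro t
    rw [hval, Complex.norm_real, Real.norm_eq_abs, ← hpw]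
    exact hx1 t
  obtain ⟨C', hC'⟩ : ∃ C' : ℝ, C' = 1 + (C + ∑ j, |α j|) := ⟨_, rfl⟩
  have hα0 : 0 ≤ ∑ j, |α j| := Finset.sum_nonneg fun _ _ => abs_nonneg _
  have hC1 : 1 ≤ C' := by rw [hC']; linarith
  have hCC : C ≤ C' := by rw [hC']; linarith
  have hbig : ∀ t, |(x t : ℝ)| ≤ C' * goldenRatio ^ (N * s t) := by
    intro t
    have h1 : |(x t : ℝ)| ≤ |(x t : ℝ) - ∑ j : Fin m, goldenRatio ^ ((s t : ℤ) * ((N : ℤ) - (j : ℕ))) * α j| +
        |∑ j : Fin m, goldenRatio ^ ((s t : ℤ) * ((N : ℤ) - (j : ℕ))) * α j| := by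
      have := abs_add_le ((x t : ℝ) - ∑ j : Fin m, goldenRatio ^ ((s t : ℤ) * ((N : ℤ) - (j : ℕ))) * α j)
        (∑ j : Fin m, goldenRatio ^ ((s t : ℤ) * ((N : ℤ) - (j : ℕ))) * α j)
      simpa using this
    have h2 : |∑ j : Fin m, goldenRatio ^ ((s t : ℤ) * ((N : ℤ) - (j : ℕ))) * α j| ≤
        (∑ j, |α j|) * goldenRatio ^ (N * s t) := by
      refine (Finset.abs_sum_le_sum_abs _ _).trans ?_
      rw [Finset.sum_mul]
      refine Finset.sum_le_sum fun j _ => ?_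
      rw [abs_mul, abs_of_pos (zpow_pos hg0 _), mul_comm]
      refine mul_le_mul_of_nonneg_left ?_ (abs_nonneg _)
      rw [← zpow_natCast]
      refine zpow_le_zpow_right₀ hg1.le ?_
      push_cast
      have h3 : (0 : ℤ) ≤ (s t : ℤ) := Int.natCast_nonneg _
      have h4 : (0 : ℤ) ≤ ((j : ℕ) : ℤ) := Int.natCast_nonneg _
      nlinarith [mul_nonneg h3 h4]
    have h3 := hx1 t
    rw [hpw] at h3
    have h4 : C * (goldenRatio ^ (J * s t))⁻¹ ≤ C * goldenRatio ^ (N * s t) := by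
      refine mul_le_mul_of_nonneg_left ?_ hC
      have h5 : (1 : ℝ) ≤ goldenRatio ^ (J * s t) := one_le_pow₀ hg1.le
      have h6 : (1 : ℝ) ≤ goldenRatio ^ (N * s t) := one_le_pow₀ hg1.le
      exact (inv_le_one_of_one_le₀ h5).trans h6
    have h5 : (0 : ℝ) ≤ goldenRatio ^ (N * s t) := by positivity
    rw [hC']
    nlinarith
  have hind : ∀ d : Fin (m + 1) → L, d ≠ 0 → ∀ᶠ t in (𝒰 : Filter ℕ), ∑ j, d j * XX ph N m (s t) (x t) j ≠ 0 := by
    intro d hd
    by_contra hc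
    have hz : ∀ᶠ t in (𝒰 : Filter ℕ), ∑ j, d j * XX ph N m (s t) (x t) j = 0 := by
      have h1 := Ultrafilter.eventually_not.2 hc
      filter_upwards [h1] with t ht
      simpa using ht
    have hz2 : ∀ᶠ t in (𝒰 : Filter ℕ), d 0 * (x t : L) + ∑ j : Fin m, d j.succ * ph ^ ((s t : ℤ) * ((N : ℤ) - (j : ℕ))) = 0 := by
      filter_upwards [hz] with t ht
      rw [Fin.sum_univ_succ] at ht
      exact ht
    by_cases hd0 : d 0 = 0
    · have h1 := small_zero goldenRatio hg1 (fun j : Fin m => ι (d j.succ)) N J (by omega) hm 0 (𝒰 : Filter ℕ) s hsT (by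
        filter_upwards [hz2] with t ht
        rw [hd0, zero_mul, zero_add] at ht
        have h2 := congrArg ι ht
        rw [map_sum, map_zero] at h2
        have h3 : ∑ j : Fin m, ι (d j.succ) * ((goldenRatio : ℝ) : ℂ) ^ ((s t : ℤ) * ((N : ℤ) - (j : ℕ))) = 0 := by
          rw [← h2]
          refine Finset.sum_congr rfl fun j _ => ?_
          rw [map_mul, map_zpow₀, hιph]
        rw [h3, norm_zero, zero_mul])
      apply hd
      funext j
      refine Fin.cases hd0 (fun j => ?_) j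
      exact (map_eq_zero ι).1 (h1 j)
    · have hx : ∀ᶠ t in (𝒰 : Filter ℕ), (x t : L) = ∑ j : Fin m, (-(d j.succ) / d 0) * ph ^ ((s t : ℤ) * ((N : ℤ) - (j : ℕ))) := by
        filter_upwards [hz2] with t ht
        have h2 : (x t : L) = -(∑ j : Fin m, d j.succ * ph ^ ((s t : ℤ) * ((N : ℤ) - (j : ℕ)))) / d 0 := by
          rw [eq_div_iff hd0]
          linear_combination ht
        rw [h2, neg_div, Finset.sum_div, ← Finset.sum_neg_distrib]
        refine Finset.sum_congr rfl fun j _ => ?_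
        ring
      have h1 := small_zero goldenRatio hg1 (fun j : Fin m => ι (-(d j.succ) / d 0) - ι (αL j)) N J (by omega) hm C (𝒰 : Filter ℕ) s hsT (by
        filter_upwards [hx] with t ht
        refine le_trans (le_of_eq ?_) (hsm t)
        congr 1
        rw [ht, ← Finset.sum_sub_distrib, map_sum]
        refine Finset.sum_congr rfl fun j _ => ?_
        rw [map_sub, map_mul, map_mul, map_zpow₀, hιph]
        ring)
      obtain ⟨t, ht⟩ := hx.exists
      apply hne t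
      rw [ht, sub_eq_zero]
      refine Finset.sum_congr rfl fun j _ => ?_
      have h2 := h1 j
      rw [sub_eq_zero] at h2
      rw [ι.injective h2]
  exact core D ι h5 hph2 αL N J hNJ C' hC1 τ₀ hτ₀ s hsT x hne
    (fun t => (hsm t).trans (mul_le_mul_of_nonneg_right hCC (by positivity))) hbig hind

end Pool.Agent.H95.FA
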