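import Pool.Agent.H95.FA.Stm2
import Pool.Agent.H95.FA.Sub
import Pool.Agent.H61.FA.Fin

/-!
# Project FA: common divisors are bounded or large
-/

set_option autoImplicit false

namespace Pool.Agent.H95.FA

open Finset Filter Topology
open Pool.Agent.H95.FB
open Pool.Agent.H61.FA (val)
open Real (goldenRatio goldenConj)

theorem half_card {K : Type} [Field K] [NumberField K] [IsGalois ℚ K] {s5 : K} (hs5 : s5 ^ 2 = 5)
    (τ₀ : K ≃ₐ[ℚ] K) (hτ₀ : τ₀ s5 = -s5) [DecidablePred fun σ : K ≃ₐ[ℚ] K => σ s5 = s5] :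
    Fintype.card (K ≃ₐ[ℚ] K) ≤ 2 * (Finset.univ.filter fun σ : K ≃ₐ[ℚ] K => σ s5 = s5).card := by
  have hhh : (Finset.univ.filter fun σ : K ≃ₐ[ℚ] K => ¬ σ s5 = s5).card ≤
      (Finset.univ.filter fun σ : K ≃ₐ[ℚ] K => σ s5 = s5).card := by
    refine Finset.card_le_card_of_injOn (fun σ => τ₀.trans σ) ?_ ?_
    · intro σ hσ
      rw [Finset.mem_coe, Finset.mem_filter] at hσ ⊢
      refine ⟨Finset.mem_univ _, ?_⟩
      have h1 : (σ s5 - s5) * (σ s5 + s5) = 0 := by
        have h2 : (σ s5) ^ 2 = 5 := by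
          rw [← map_pow, hs5, map_ofNat]
        linear_combination h2 - hs5
      have h2 : σ s5 = -s5 := by
        rcases mul_eq_zero.1 h1 with h3 | h3
        · exact absurd (sub_eq_zero.1 h3) hσ.2
        · linear_combination h3
      show σ (τ₀ s5) = s5
      rw [hτ₀, map_neg, h2, neg_neg]
    · intro σ _ σ' _ hσσ
      ext y
      have := congrArg (fun f : K ≃ₐ[ℚ] K => f (τ₀.symm y)) hσσ
      simpa using this
  have h2 := Finset.card_filter_add_card_filter_not (s := (Finset.univ : Finset (K ≃ₐ[ℚ] K)))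
    (fun σ : K ≃ₐ[ℚ] K => σ s5 = s5)
  rw [Finset.card_univ] at h2
  omega

theorem gcd_alt (hLOW : S_LOW) (hNRM : S_NRM) (hDEN : S_DEN) (q i N m : ℕ) (hq : 1 ≤ q) (α : Fin m → ℝ)
    (hα : ∀ j, IsAlgebraic ℚ (α j)) (κ : ℝ) (hκ : IsIntegral ℤ κ) (hκ0 : κ ≠ 0) (c : ℤ) (hc : c ≠ 0) :
    ∃ B : ℕ, 1 ≤ B ∧ ∃ c₀ : ℝ, 0 < c₀ ∧ ∃ s₁ : ℕ, ∀ s : ℕ, s₁ ≤ s → ∀ (x : ℤ) (M : ℕ), 1 ≤ M →
      (x : ℝ) = val N α s → κ * M = goldenRatio ^ (q * s + i) - c * (goldenRatio ^ (q * s + i))⁻¹ →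
      Int.gcd x M ∣ B ∨ c₀ * goldenRatio ^ ((s : ℝ) / 2) ≤ Int.gcd x M := by
  classical
  have hg0 : 0 < goldenRatio := Real.goldenRatio_pos
  have hg1 : 1 < goldenRatio := Real.one_lt_goldenRatio
  have hgC : ((goldenRatio : ℝ) : ℂ) ≠ 0 := by exact_mod_cast hg0.ne'
  have hκalg : IsAlgebraic ℚ κ := (hκ.tower_top (A := ℚ)).isAlgebraic
  obtain ⟨L, hfd, hgal, hL⟩ := Pool.Agent.N754.LT.galois_sub
    (Finset.univ.image (fun j => ((α j : ℝ) : ℂ)) ∪ {((√5 : ℝ) : ℂ), ((κ : ℝ) : ℂ)}) (by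
      intro y hy
      rw [Finset.mem_union, Finset.mem_image] at hy
      rcases hy with ⟨j, -, rfl⟩ | hy
      · exact (hα j).algebraMap
      · simp only [Finset.mem_insert, Finset.mem_singleton] at hy
        rcases hy with rfl | rfl
        · refine alg_of_pow (n := 2) (by norm_num) ?_
          rw [← Complex.ofReal_pow, Real.sq_sqrt (by norm_num)]
          have : (((5 : ℝ)) : ℂ) = algebraMap ℚ ℂ 5 := by simp
          rw [this]
          exact isAlgebraic_algebraMap _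
        · exact hκalg.algebraMap)
  have hαL : ∀ j, ((α j : ℝ) : ℂ) ∈ L := fun j => hL _ (by simp)
  have hs5L : ((√5 : ℝ) : ℂ) ∈ L := hL _ (by simp)
  have hκL : ((κ : ℝ) : ℂ) ∈ L := hL _ (by simp)
  have : NumberField L := ⟨⟩
  obtain ⟨s5, hs5⟩ : ∃ x : L, (x : ℂ) = ((√5 : ℝ) : ℂ) := ⟨⟨_, hs5L⟩, rfl⟩
  obtain ⟨κL, hκL'⟩ : ∃ x : L, (x : ℂ) = ((κ : ℝ) : ℂ) := ⟨⟨_, hκL⟩, rfl⟩
  obtain ⟨αL, hαL'⟩ : ∃ x : Fin m → L, ∀ j, (x j : ℂ) = ((α j : ℝ) : ℂ) := ⟨fun j => ⟨_, hαL j⟩, fun j => rfl⟩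
  obtain ⟨τ₀, hτ₀⟩ := exists_s5 hs5
  obtain ⟨ph, hph⟩ : ∃ x : L, x = (1 + s5) / 2 := ⟨_, rfl⟩
  have h5 : 2 * ph = 1 + s5 := by
    rw [hph]
    ring
  have hphC : (ph : ℂ) = ((goldenRatio : ℝ) : ℂ) := by
    rw [hph, phi_eq, ← hs5]
    push_cast
    rfl
  have hph2 : ph ^ 2 = ph + 1 := by
    apply Subtype.ext
    push_cast
    rw [hphC]
    exact_mod_cast Real.goldenRatio_sq
  have hph0 : ph ≠ 0 := by
    rintro rfl
    exact hgC (by rw [← hphC]; rfl)
  have hs52 : s5 ^ 2 = 5 := by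
    have e : s5 = 2 * ph - 1 := by linear_combination -h5
    rw [e]
    linear_combination 4 * hph2
  obtain ⟨ι, hι⟩ : ∃ ι : L →+* ℂ, ∀ y, ι y = (y : ℂ) := ⟨algebraMap L ℂ, fun y => rfl⟩
  have hιph : ι ph = ((goldenRatio : ℝ) : ℂ) := by rw [hι, hphC]
  have hκL0 : κL ≠ 0 := by
    rintro rfl
    have : ((κ : ℝ) : ℂ) = 0 := by rw [← hκL']; rfl
    exact hκ0 (by exact_mod_cast this)
  have hphint : IsIntegral ℤ ph := ph_int hph2
  have hphinv : IsIntegral ℤ (ph⁻¹) := by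
    have : ph⁻¹ = ph - 1 := by
      apply inv_eq_of_mul_eq_one_right
      linear_combination hph2
    rw [this]
    exact hphint.sub isIntegral_one
  have hκint : IsIntegral ℤ κL := by
    have h1 : IsIntegral ℤ ((κ : ℝ) : ℂ) := hκ.algebraMap
    rw [← hκL'] at h1
    exact (isIntegral_algebraMap_iff (A := L) (B := ℂ) (algebraMap L ℂ).injective).1 h1
  obtain ⟨hden, hdiv⟩ := hDEN L
  -- the polynomials
  obtain ⟨A, hA⟩ : ∃ A : Polynomial L, A = ∑ j : Fin m, Polynomial.C (αL j) * Polynomial.X ^ (N + m - (j : ℕ)) := ⟨_, rfl⟩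
  obtain ⟨R, hR⟩ : ∃ R : Polynomial L, R = Polynomial.C (ph ^ (2 * i)) * Polynomial.X ^ (2 * q) - Polynomial.C (c : L) :=
    ⟨_, rfl⟩
  have hAev : ∀ (s : ℕ) (x : ℤ), (x : ℝ) = val N α s → A.eval (ph ^ s) = ph ^ (s * m) * (x : L) := by
    intro s x hx
    have hxL : (x : L) = ∑ j : Fin m, ph ^ ((s : ℤ) * ((N : ℤ) - (j : ℕ))) * αL j := by
      apply ι.injective
      rw [map_intCast, map_sum]
      have h1 : ((x : ℤ) : ℂ) = (((x : ℝ)) : ℂ) := by push_cast; rfl
      rw [h1, hx]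
      unfold Pool.Agent.H61.FA.val
      rw [Complex.ofReal_sum]
      refine Finset.sum_congr rfl fun j _ => ?_
      rw [map_mul, map_zpow₀, hιph, hι, hαL', Complex.ofReal_mul, Complex.ofReal_zpow]
    rw [hA, Polynomial.eval_finsetSum, hxL, Finset.mul_sum]
    refine Finset.sum_congr rfl fun j _ => ?_
    rw [Polynomial.eval_mul, Polynomial.eval_C, Polynomial.eval_pow, Polynomial.eval_X]
    have e2 : (ph ^ s) ^ (N + m - (j : ℕ)) = ph ^ (s * m) * ph ^ ((s : ℤ) * ((N : ℤ) - (j : ℕ))) := by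
      rw [← pow_mul, ← zpow_natCast, ← zpow_natCast, ← zpow_add₀ hph0]
      congr 1
      have hj := j.2
      have h1 : ((N + m - (j : ℕ) : ℕ) : ℤ) = N + m - (j : ℕ) := by omega
      rw [Nat.cast_mul, Nat.cast_mul, h1]
      ring
    rw [e2]
    ring
  have hRev : ∀ (s M : ℕ), κ * M = goldenRatio ^ (q * s + i) - c * (goldenRatio ^ (q * s + i))⁻¹ →
      R.eval (ph ^ s) = ph ^ (q * s + i) * (κL * (M : L)) := by
    intro s M hM
    have hML : κL * (M : L) = ph ^ (q * s + i) - c * (ph ^ (q * s + i))⁻¹ := by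
      apply ι.injective
      rw [map_mul, map_natCast, map_sub, map_mul, map_inv₀, map_pow, map_intCast, hιph, hι, hκL']
      have h1 := congrArg (Complex.ofReal) hM
      rw [Complex.ofReal_mul, Complex.ofReal_natCast, Complex.ofReal_sub, Complex.ofReal_mul, Complex.ofReal_inv,
        Complex.ofReal_pow, Complex.ofReal_intCast] at h1
      exact h1
    rw [hML, hR, Polynomial.eval_sub, Polynomial.eval_mul, Polynomial.eval_C, Polynomial.eval_C, Polynomial.eval_pow,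
      Polynomial.eval_X, ← pow_mul]
    have h1 : ph ^ (q * s + i) ≠ 0 := pow_ne_zero _ hph0
    field_simp
    ring
  -- the greatest common divisor
  obtain ⟨G, hG⟩ : ∃ G : Polynomial L, G = EuclideanDomain.gcd A R := ⟨_, rfl⟩
  obtain ⟨Q1, hQ1⟩ : G ∣ A := hG ▸ EuclideanDomain.gcd_dvd_left A R
  obtain ⟨Q2, hQ2⟩ : G ∣ R := hG ▸ EuclideanDomain.gcd_dvd_right A R
  have hbez : G = A * EuclideanDomain.gcdA A R + R * EuclideanDomain.gcdB A R := hG ▸ EuclideanDomain.gcd_eq_gcd_ab A R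
  have hR0 : R.eval 0 ≠ 0 := by
    rw [hR, Polynomial.eval_sub, Polynomial.eval_mul, Polynomial.eval_C, Polynomial.eval_C, Polynomial.eval_pow,
      Polynomial.eval_X, zero_pow (by omega), mul_zero, zero_sub, neg_ne_zero]
    exact_mod_cast hc
  have hG0 : G.eval 0 ≠ 0 := by
    intro h
    apply hR0
    rw [hQ2, Polynomial.eval_mul, h, zero_mul]
  by_cases hdeg : 1 ≤ G.natDegree
  · -- a common factor
    obtain ⟨N1, hN1, hd1⟩ := hden Q1
    obtain ⟨N2, hN2, hd2⟩ := hden Q2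
    obtain ⟨N3, hN3, hd3⟩ := hden (Polynomial.C κL⁻¹)
    have hlow : ∀ σ : L ≃ₐ[ℚ] L, ∃ e : ℝ, 0 < e ∧ ∃ s₀ : ℕ, ∀ s : ℕ, s₀ ≤ s →
        e * (if σ s5 = s5 then goldenRatio ^ s else 1) ≤ ‖ι (σ (G.eval (ph ^ s)))‖ := by
      intro σ
      obtain ⟨p, hp⟩ : ∃ p : Polynomial ℂ, p = G.map (ι.comp (σ : L →+* L)) := ⟨_, rfl⟩
      have hpd : p.natDegree = G.natDegree := by
        rw [hp]
        exact Polynomial.natDegree_map _
      have hpe : ∀ y : L, ι (σ (G.eval y)) = p.eval (ι (σ y)) := by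
        intro y
        have h1 := Polynomial.eval_map_apply (f := ι.comp (σ : L →+* L)) (p := G) y
        rw [hp]
        exact h1.symm
      obtain ⟨l1, l2⟩ := hLOW p
      by_cases hσ : σ s5 = s5
      · obtain ⟨e, he, s₀, hs₀⟩ := l1 (by rw [hpd]; exact hdeg)
        refine ⟨e, he, s₀, fun s hs => ?_⟩
        rw [if_pos hσ, hpe]
        have h1 : ι (σ (ph ^ s)) = ((goldenRatio : ℝ) : ℂ) ^ s := by
          have e3 : σ ph = ph := by
            have h6 := congrArg σ h5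
            rw [map_mul, map_add, map_one, map_ofNat, hσ, ← h5] at h6
            exact mul_left_cancel₀ two_ne_zero h6
          rw [map_pow, e3, map_pow, hιph]
        rw [h1]
        exact hs₀ s hs
      · obtain ⟨e, he, s₀, hs₀⟩ := l2 (by
          have h1 := hpe 0
          rw [map_zero, map_zero] at h1
          rw [← h1]
          exact (map_ne_zero ι).2 ((map_ne_zero σ).2 hG0))
        refine ⟨e, he, s₀, fun s hs => ?_⟩
        rw [if_neg hσ, mul_one, hpe]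
        have h1 : ι (σ (ph ^ s)) = ((goldenConj : ℝ) : ℂ) ^ s := by
          have h2 : σ s5 = -s5 := by
            have h1 : (σ s5 - s5) * (σ s5 + s5) = 0 := by
              have h2 : (σ s5) ^ 2 = 5 := by
                rw [← map_pow, hs52, map_ofNat]
              linear_combination h2 - hs52
            rcases mul_eq_zero.1 h1 with h3 | h3
            · exact absurd (sub_eq_zero.1 h3) hσ
            · linear_combination h3
          have e3 : σ ph = 1 - ph := by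
            have h6 := congrArg σ h5
            rw [map_mul, map_add, map_one, map_ofNat, h2] at h6
            have h7 : 2 * σ ph = 2 * (1 - ph) := by linear_combination h6 + h5
            exact mul_left_cancel₀ two_ne_zero h7
          rw [map_pow, e3, map_pow, map_sub, map_one, hιph]
          congr 1
          have : goldenConj = 1 - goldenRatio := by
            linarith [Real.goldenRatio_add_goldenConj]
          rw [this, Complex.ofReal_sub, Complex.ofReal_one]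
        rw [h1]
        exact hs₀ s hs
    choose e he s₀ hs₀ using hlow
    obtain ⟨d, hd⟩ : ∃ d : ℕ, d = Fintype.card (L ≃ₐ[ℚ] L) := ⟨_, rfl⟩
    have hd1' : 1 ≤ d := by
      rw [hd]
      exact Fintype.card_pos
    obtain ⟨h, hh⟩ : ∃ h : ℕ, h = (Finset.univ.filter fun σ : L ≃ₐ[ℚ] L => σ s5 = s5).card := ⟨_, rfl⟩
    have hdh : d ≤ 2 * h := by
      rw [hd, hh]
      exact half_card hs52 τ₀ hτ₀
    obtain ⟨E, hE⟩ : ∃ E : ℝ, E = ∏ σ, e σ := ⟨_, rfl⟩
    have hE0 : 0 < E := by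
      rw [hE]
      exact Finset.prod_pos fun σ _ => he σ
    obtain ⟨B3, hB3⟩ : ∃ B3 : ℕ, B3 = N1 * N2 * N3 := ⟨_, rfl⟩
    have hB31 : 1 ≤ B3 := by
      rw [hB3]
      exact Nat.mul_pos (Nat.mul_pos hN1 hN2) hN3
    have hB3R : (0 : ℝ) < B3 := by exact_mod_cast hB31
    have hdR : (0 : ℝ) < d := by exact_mod_cast hd1'
    refine ⟨1, le_rfl, E ^ ((1 : ℝ) / d) / B3, by positivity, Finset.univ.sup s₀, fun s hs x M hM hx hMe => Or.inr ?_⟩
    obtain ⟨g, hg⟩ : ∃ g : ℕ, g = Int.gcd x M := ⟨_, rfl⟩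
    rw [← hg]
    have hg1' : 1 ≤ g := by
      rw [hg]
      exact Int.gcd_pos_of_ne_zero_right _ (by omega)
    have h1 := hAev s x hx
    have h2 := hRev s M hMe
    rw [hQ1, Polynomial.eval_mul] at h1
    rw [hQ2, Polynomial.eval_mul] at h2
    have hML0 : (M : L) ≠ 0 := by
      have : M ≠ 0 := by omega
      exact_mod_cast this
    have hGT : G.eval (ph ^ s) ≠ 0 := by
      intro h0
      rw [h0, zero_mul] at h2
      exact mul_ne_zero (pow_ne_zero _ hph0) (mul_ne_zero hκL0 hML0) h2.symm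
    obtain ⟨y, hy⟩ : ∃ y : L, y = (B3 : L) * (g : L) / G.eval (ph ^ s) := ⟨_, rfl⟩
    have hyG : G.eval (ph ^ s) * y = (B3 : L) * (g : L) := by
      rw [hy]
      field_simp
    have hgL : (g : L) ≠ 0 := by
      have : g ≠ 0 := by omega
      exact_mod_cast this
    have hB3L : (B3 : L) ≠ 0 := by
      have : B3 ≠ 0 := by omega
      exact_mod_cast this
    have hy0 : y ≠ 0 := by
      rw [hy]
      exact div_ne_zero (mul_ne_zero hB3L hgL) hGT
    have hTint : IsIntegral ℤ (ph ^ s) := hphint.pow s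
    have hyint : IsIntegral ℤ y := by
      have hbz := Int.gcd_eq_gcd_ab x M
      rw [← hg] at hbz
      have hgx : (g : L) = (x : L) * ((Int.gcdA x M : ℤ) : L) + (M : L) * ((Int.gcdB x M : ℤ) : L) := by
        have := congrArg (Int.cast : ℤ → L) hbz
        push_cast at this
        exact this
      have hxx : (x : L) = G.eval (ph ^ s) * (Q1.eval (ph ^ s) * (ph⁻¹) ^ (s * m)) := by
        rw [← mul_assoc, h1, inv_pow]
        have : ph ^ (s * m) ≠ 0 := pow_ne_zero _ hph0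
        field_simp
      have hMM : (M : L) = G.eval (ph ^ s) * (Q2.eval (ph ^ s) * (ph⁻¹) ^ (q * s + i) * κL⁻¹) := by
        rw [← mul_assoc, ← mul_assoc, h2, inv_pow]
        have : ph ^ (q * s + i) ≠ 0 := pow_ne_zero _ hph0
        field_simp
      have hyy : y = (N2 : L) * (N3 : L) * ((N1 : L) * Q1.eval (ph ^ s)) * (ph⁻¹) ^ (s * m) * ((Int.gcdA x M : ℤ) : L) +
          (N1 : L) * ((N2 : L) * Q2.eval (ph ^ s)) * (ph⁻¹) ^ (q * s + i) * ((N3 : L) * κL⁻¹) * ((Int.gcdB x M : ℤ) : L) := by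
        have h3 : G.eval (ph ^ s) * y = G.eval (ph ^ s) * ((N2 : L) * (N3 : L) * ((N1 : L) * Q1.eval (ph ^ s)) * (ph⁻¹) ^ (s * m) * ((Int.gcdA x M : ℤ) : L) +
          (N1 : L) * ((N2 : L) * Q2.eval (ph ^ s)) * (ph⁻¹) ^ (q * s + i) * ((N3 : L) * κL⁻¹) * ((Int.gcdB x M : ℤ) : L)) := by
          rw [hyG, hgx, hB3]
          push_cast
          linear_combination ((N1 : L) * N2 * N3 * ((Int.gcdA x M : ℤ) : L)) * hxx + ((N1 : L) * N2 * N3 * ((Int.gcdB x M : ℤ) : L)) * hMM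
        exact mul_left_cancel₀ hGT h3
      rw [hyy]
      have i1 : ∀ k : ℕ, IsIntegral ℤ (k : L) := fun k => by
        have := isIntegral_algebraMap (R := ℤ) (A := L) (x := (k : ℤ))
        simpa using this
      have i2 : ∀ k : ℤ, IsIntegral ℤ (k : L) := fun k => by
        have := isIntegral_algebraMap (R := ℤ) (A := L) (x := k)
        simpa using this
      have i3 : IsIntegral ℤ ((N3 : L) * κL⁻¹) := by
        have := hd3 0 isIntegral_zero
        rwa [Polynomial.eval_C] at this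
      exact (((((i1 _).mul (i1 _)).mul (hd1 _ hTint)).mul (hphinv.pow _)).mul (i2 _)).add
        (((((i1 _).mul (hd2 _ hTint)).mul (hphinv.pow _)).mul i3).mul (i2 _))
    have hnorm := hNRM L ι y hyint hy0
    have hprod : (∏ σ : L ≃ₐ[ℚ] L, ‖ι (σ (G.eval (ph ^ s)))‖) * ∏ σ : L ≃ₐ[ℚ] L, ‖ι (σ y)‖ = ((B3 : ℝ) * g) ^ d := by
      rw [← Finset.prod_mul_distrib]
      have h3 : ∀ σ : L ≃ₐ[ℚ] L, ‖ι (σ (G.eval (ph ^ s)))‖ * ‖ι (σ y)‖ = (B3 : ℝ) * g := by
        intro σ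
        rw [← norm_mul, ← map_mul, ← map_mul, hyG, map_mul, map_mul, map_natCast, map_natCast, map_natCast, map_natCast,
          norm_mul, Complex.norm_natCast, Complex.norm_natCast]
      rw [Finset.prod_congr rfl fun σ _ => h3 σ, Finset.prod_const, Finset.card_univ, ← hd]
    have hlow2 : E * goldenRatio ^ (s * h) ≤ ∏ σ : L ≃ₐ[ℚ] L, ‖ι (σ (G.eval (ph ^ s)))‖ := by
      have h3 : E * goldenRatio ^ (s * h) = ∏ σ : L ≃ₐ[ℚ] L, (e σ * (if σ s5 = s5 then goldenRatio ^ s else 1)) := by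
        rw [Finset.prod_mul_distrib, ← hE, Finset.prod_ite, Finset.prod_const_one, mul_one, Finset.prod_const, ← hh, ← pow_mul]
      rw [h3]
      refine Finset.prod_le_prod (fun σ _ => ?_) (fun σ _ => ?_)
      · have := he σ
        split_ifs <;> positivity
      · exact hs₀ σ s ((Finset.le_sup (Finset.mem_univ σ)).trans hs)
    have hP0 : 0 ≤ ∏ σ : L ≃ₐ[ℚ] L, ‖ι (σ (G.eval (ph ^ s)))‖ := Finset.prod_nonneg fun σ _ => norm_nonneg _
    have hfin : E * goldenRatio ^ (s * h) ≤ ((B3 : ℝ) * g) ^ d := by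
      rw [← hprod]
      calc E * goldenRatio ^ (s * h) ≤ ∏ σ : L ≃ₐ[ℚ] L, ‖ι (σ (G.eval (ph ^ s)))‖ := hlow2
        _ = (∏ σ : L ≃ₐ[ℚ] L, ‖ι (σ (G.eval (ph ^ s)))‖) * 1 := (mul_one _).symm
        _ ≤ _ := mul_le_mul_of_nonneg_left hnorm hP0
    rw [div_mul_eq_mul_div, div_le_iff₀ hB3R]
    by_contra hcon
    push Not at hcon
    have h6 : ((B3 : ℝ) * g) ^ d < (E ^ ((1 : ℝ) / d) * goldenRatio ^ ((s : ℝ) / 2)) ^ d := by
      refine pow_lt_pow_left₀ ?_ (by positivity) (by omega)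
      rw [mul_comm]
      exact hcon
    have h7 : (E ^ ((1 : ℝ) / d) * goldenRatio ^ ((s : ℝ) / 2)) ^ d ≤ E * goldenRatio ^ (s * h) := by
      rw [mul_pow, ← Real.rpow_natCast, ← Real.rpow_mul hE0.le, one_div, inv_mul_cancel₀ hdR.ne', Real.rpow_one,
        ← Real.rpow_natCast, ← Real.rpow_mul hg0.le, ← Real.rpow_natCast]
      refine mul_le_mul_of_nonneg_left (Real.rpow_le_rpow_of_exponent_le hg1.le ?_) hE0.le
      have h8 : (d : ℝ) ≤ 2 * h := by exact_mod_cast hdh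
      push_cast
      nlinarith [(Nat.cast_nonneg s : (0 : ℝ) ≤ s)]
    exact absurd (h6.trans_le (h7.trans hfin)) (lt_irrefl _)
  · -- coprime
    have hGc : G = Polynomial.C (G.eval 0) := by
      have h1 := Polynomial.eq_C_of_natDegree_eq_zero (p := G) (by omega)
      rw [h1, Polynomial.eval_C]
    obtain ⟨g0, hg0'⟩ : ∃ g0 : L, g0 = G.eval 0 := ⟨_, rfl⟩
    rw [← hg0'] at hGc hG0
    obtain ⟨N1, hN1, hd1⟩ := hden (Polynomial.C g0⁻¹ * EuclideanDomain.gcdA A R)
    obtain ⟨N2, hN2, hd2⟩ := hden (Polynomial.C g0⁻¹ * EuclideanDomain.gcdB A R)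
    refine ⟨N1 * N2, Nat.mul_pos hN1 hN2, 1, one_pos, 0, fun s _ x M hM hx hMe => Or.inl ?_⟩
    obtain ⟨g, hg⟩ : ∃ g : ℕ, g = Int.gcd x M := ⟨_, rfl⟩
    rw [← hg]
    have hg1' : 1 ≤ g := by
      rw [hg]
      exact Int.gcd_pos_of_ne_zero_right _ (by omega)
    have hgL : (g : L) ≠ 0 := by
      have : g ≠ 0 := by omega
      exact_mod_cast this
    obtain ⟨x', hx'⟩ : (g : ℤ) ∣ x := hg ▸ Int.gcd_dvd_left ..
    obtain ⟨M', hM'⟩ : (g : ℤ) ∣ (M : ℤ) := hg ▸ Int.gcd_dvd_right ..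
    have h1 := hAev s x hx
    have h2 := hRev s M hMe
    have h3 := congrArg (Polynomial.eval (ph ^ s)) hbez
    rw [Polynomial.eval_add, Polynomial.eval_mul, Polynomial.eval_mul, h1, h2, hGc, Polynomial.eval_C] at h3
    have hxL : (x : L) = (g : L) * (x' : L) := by
      have := congrArg (Int.cast : ℤ → L) hx'
      push_cast at this
      exact this
    have hML : (M : L) = (g : L) * (M' : L) := by
      have := congrArg (Int.cast : ℤ → L) hM'
      push_cast at this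
      exact this
    refine hdiv (N1 * N2) g hg1' ?_
    have h4 : (((N1 * N2 : ℕ) : L) / (g : L)) =
        ph ^ (s * m) * (x' : L) * ((N2 : L) * ((N1 : L) * (Polynomial.C g0⁻¹ * EuclideanDomain.gcdA A R).eval (ph ^ s))) +
        ph ^ (q * s + i) * (κL * (M' : L)) * ((N1 : L) * ((N2 : L) * (Polynomial.C g0⁻¹ * EuclideanDomain.gcdB A R).eval (ph ^ s))) := by
      rw [div_eq_iff hgL, Polynomial.eval_mul, Polynomial.eval_mul, Polynomial.eval_C]
      rw [hxL, hML] at h3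
      have h5 : (1 : L) = g0⁻¹ * g0 := (inv_mul_cancel₀ hG0).symm
      push_cast
      calc (N1 : L) * N2 = N1 * N2 * (g0⁻¹ * g0) := by rw [← h5, mul_one]
        _ = N1 * N2 * (g0⁻¹ * (ph ^ (s * m) * ((g : L) * (x' : L)) * Polynomial.eval (ph ^ s) (EuclideanDomain.gcdA A R) +
            ph ^ (q * s + i) * (κL * ((g : L) * (M' : L))) * Polynomial.eval (ph ^ s) (EuclideanDomain.gcdB A R))) := by rw [← h3]
        _ = _ := by ring
    rw [h4]
    have i1 : ∀ k : ℕ, IsIntegral ℤ (k : L) := fun k => by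
      have := isIntegral_algebraMap (R := ℤ) (A := L) (x := (k : ℤ))
      simpa using this
    have i2 : ∀ k : ℤ, IsIntegral ℤ (k : L) := fun k => by
      have := isIntegral_algebraMap (R := ℤ) (A := L) (x := k)
      simpa using this
    have hTint : IsIntegral ℤ (ph ^ s) := hphint.pow s
    exact (((hphint.pow _).mul (i2 _)).mul ((i1 _).mul (hd1 _ hTint))).add
      (((hphint.pow _).mul (hκint.mul (i2 _))).mul ((i1 _).mul (hd2 _ hTint)))

end Pool.Agent.H95.FA
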