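import Pool.Graph.R_pool_sql_team_seeded_3997aac3.Q270.PX.Alg
import Pool.Agent.H95.FB.End

/-!
# Project FA (helper95), MP_5893d7_nt: Fibonacci and Lucas numbers and algebraic functions

For every nonzero `P ∈ ℤ[X, Y]` and `M = F_n` or `L_n` (`n` without small prime factors, or `n = 2 ^ j` for `L_n`): every
integer `x` with `P (x, M) = 0` satisfies `M ∣ x` or `gcd (x, M) < M ^ ε`, and no divisor `1 < d < M` satisfies `P (d, M) = 0`.
-/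

set_option autoImplicit false

namespace Pool.Agent.H95.FA

open Polynomial
open Pool.Agent.Q270.PX (An RA rt)
open Real (goldenRatio)

/-- CUR: the branches of a curve. PROOF. As `Pool.Agent.H95.HL.t_CUR` (Pool/Agent/H95/HL/Cur.lean, helper52), library theorem
`Pool.Agent.Q270.PX.puiseux` with `K = RA`, now for the polynomial `PP ∈ ℝ[X][X]` (outer variable the root `x`, inner
variable `t`) with `PP (x, t) = t ^ d P (x, (t ^ 2 - c) / (κ t))`, for instance for `d = P.totalDegree`: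
`PP = ∑ over the support of P: C (C coefficient) * X ^ (a 0) * C ((C κ⁻¹ * (X ^ 2 - C c)) ^ (a 1) * X ^ (d - a 1))`.
`PP ≠ 0`: else `P (x, y) = 0` for all real `x` and all `y = (t ^ 2 - c) / (κ t)`, `t > 0`: an infinite set of `y` (the
expression tends to infinity), so `P = 0`. -/
def S_CUR : Prop := ∀ P : MvPolynomial (Fin 2) ℤ, P ≠ 0 → ∀ κ c : ℝ, IsAlgebraic ℚ κ → IsAlgebraic ℚ c → κ ≠ 0 →
  ∃ D q : ℕ, 1 ≤ q ∧ ∃ S : Set (ℝ → ℝ), S.Finite ∧ (∀ G ∈ S, An RA G) ∧ ∃ T₀ : ℝ, ∀ t : ℝ, T₀ ≤ t → ∀ x M : ℤ,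
    κ * M = t - c * t⁻¹ → MvPolynomial.eval ![x, M] P = 0 → ∃ G ∈ S, (x : ℝ) = t ^ D * G (rt q t)

/-- EXP: expansion of a germ along the powers of the golden ratio. PROOF. `Pool.Agent.H95.HL.expand`
(Pool/Agent/H95/HL/Grm.lean) with `2` replaced by `goldenRatio` and with `q * D + J` terms (`zpow` exponents
`q D - j`, `j < q D + J`). -/
def S_EXP : Prop := ∀ (G : ℝ → ℝ) (D q i J : ℕ), An RA G → 1 ≤ q →
  ∃ (α : Fin (q * D + J) → ℝ) (C : ℝ), (∀ j, IsAlgebraic ℚ (α j)) ∧ 0 ≤ C ∧ ∃ s₁ : ℕ, ∀ s : ℕ, s₁ ≤ s →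
    |(goldenRatio ^ (q * s + i)) ^ D * G (rt q (goldenRatio ^ (q * s + i))) -
      ∑ j : Fin (q * D + J), goldenRatio ^ ((s : ℤ) * ((q * D : ℕ) - (j : ℕ) : ℤ)) * α j| ≤
      C * (goldenRatio ^ ((J : ℤ) * s))⁻¹

/-- SUB (helper95): the Subspace theorem. -/
def S_SUB : Prop := ∀ (m : ℕ) (α : Fin m → ℝ) (N J : ℕ) (C : ℝ), (∀ j, IsAlgebraic ℚ (α j)) → N < J → m ≤ N + J → 0 ≤ C →
  ∃ s₀ : ℕ, ∀ s : ℕ, s₀ ≤ s → ∀ x : ℤ,
    |(x : ℝ) - ∑ j : Fin m, goldenRatio ^ ((s : ℤ) * ((N : ℤ) - (j : ℕ))) * α j| ≤ C * (goldenRatio ^ ((J : ℤ) * s))⁻¹ →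
    (x : ℝ) = ∑ j : Fin m, goldenRatio ^ ((s : ℤ) * ((N : ℤ) - (j : ℕ))) * α j

/-- GRO: elementary. An integer `d > 1` which is a value of a Laurent polynomial in `φ ^ s` is fixed or large.
PROOF. Let `j₀` be the first index with `α j₀ ≠ 0` (if there is none, `d = 0`). If `j₀ < N` the sum is
`~ α j₀ φ ^ (s (N - j₀))`, so `d ≥ φ ^ (s / 2)` for large `s`; if `j₀ = N` it tends to `α j₀`, so `d` is the only integer
near it (`d ≤ |α j₀| + 1`); if `j₀ > N` it tends to `0`, so `d = 0` for large `s`. -/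
def S_GRO : Prop := ∀ (m : ℕ) (α : Fin m → ℝ) (N : ℕ), ∃ s₀ B : ℕ, ∀ s : ℕ, s₀ ≤ s → ∀ d : ℕ,
  (d : ℝ) = ∑ j : Fin m, goldenRatio ^ ((s : ℤ) * ((N : ℤ) - (j : ℕ))) * α j → d ≤ B ∨ goldenRatio ^ ((s : ℝ) / 2) ≤ d

/-- SIZ: elementary. PROOF. `Adm P n M`: `M = fib n` (`n` odd, `√5 M = φ ^ n + φ ^ (-n)`) or `M = lucas n`
(`M = φ ^ n ∓ φ ^ (-n)`): see `fib_odd`, `lucas_odd`, `lucas_even`, `conj_pow`, `fib_binet`, `lucas_binet` in
Pool/Agent/H95/FB/Fib.lean and the definition `Adm` in Pool/Agent/H95/FB/End.lean; `Adm.lt : P < n`. The three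
pairs `(κ, c)` are `(√5, -1)`, `(1, 1)`, `(1, -1)`, and `M ≤ 2 φ ^ n ≤ φ ^ (n + 2)`. -/
def S_SIZ : Prop := ∀ n M : ℕ, Pool.Agent.H95.FB.Adm 3 n M →
  ((√5 * M = goldenRatio ^ n - (-1) * (goldenRatio ^ n)⁻¹) ∨ (1 * (M : ℝ) = goldenRatio ^ n - 1 * (goldenRatio ^ n)⁻¹) ∨
    (1 * (M : ℝ) = goldenRatio ^ n - (-1) * (goldenRatio ^ n)⁻¹)) ∧ (M : ℝ) ≤ goldenRatio ^ (n + 2)

/-- FIN. The theorem. PROOF. For each of the three pairs `(κ, c)` take `D, q, S` from `S_CUR`, for `G ∈ S` and `i < q` take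
`α` from `S_EXP` with `J = q D + 1`, `N = q D`, and apply `S_SUB`: for `n = q s + i` large every integer `x` with
`P (x, M) = 0` is `∑ j, φ ^ (s (N - j)) α j` for one of finitely many `(G, i)`. With `g = (φ, α 0, ..., α (m - 1))` (skip
`α j = 0`: use `g = if α j = 0 then 1 else α j` and leave the term out), `x` is in `Sums g k (B n)` (Pool/Agent/H95/FB/End.lean;
the exponents are `s (N - j)`, at most `N n` in absolute value... take `B = q D + J + 1`). Now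
`Pool.Agent.H95.FB.any_k` gives the first part. Second part: `d ∣ M`, `1 < d < M`, `P (d, M) = 0`; first part for
`ε = 1 / (8 q)`: `M ∣ d` is impossible, so `d = gcd (d, M) < M ^ ε ≤ φ ^ ((n + 2) / (8 q)) < φ ^ (s / 2)` for large `n`; by `S_GRO`
`d ≤ B`, but every prime factor of `M` is larger than `B` (`Adm.primes`). -/
def S_FIN : Prop := ∀ (P : MvPolynomial (Fin 2) ℤ), P ≠ 0 → ∀ ε : ℝ, 0 < ε → ∃ A : ℕ, ∀ n M : ℕ,
  Pool.Agent.H95.FB.Adm A n M →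
    (∀ x : ℤ, MvPolynomial.eval ![x, (M : ℤ)] P = 0 → (M : ℤ) ∣ x ∨ (Int.gcd x M : ℝ) < (M : ℝ) ^ ε) ∧
    ∀ d : ℕ, d ∣ M → 1 < d → d < M → MvPolynomial.eval ![(d : ℤ), (M : ℤ)] P ≠ 0

end Pool.Agent.H95.FA
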