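import Pool.Agent.H95.FA.Stm

/-!
# Project FA (helper95), second part: the greatest common divisor is one
-/

set_option autoImplicit false

namespace Pool.Agent.H95.FA

open Polynomial
open Real (goldenRatio goldenConj)

/-- LOW. PROOF. First part: `p / X ^ deg` tends to the leading coefficient, or `Polynomial.isEquivalent`..., or write
`p = C (p.coeff 0) + X * r`, `r ≠ 0`: `‖r (z)‖` tends to infinity (`Polynomial.tendsto_norm_atTop`) or `r` is a nonzero
constant, so `‖r (z)‖ ≥ c₁` and `‖p (z)‖ ≥ c₁ ‖z‖ - ‖p.coeff 0‖ ≥ (c₁ / 2) ‖z‖`. Second part: continuity at `0`, as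
`|goldenConj| < 1`. -/
def S_LOW : Prop := ∀ p : ℂ[X], (1 ≤ p.natDegree → ∃ c : ℝ, 0 < c ∧ ∃ s₀ : ℕ, ∀ s : ℕ, s₀ ≤ s →
    c * goldenRatio ^ s ≤ ‖p.eval (((goldenRatio : ℝ) : ℂ) ^ s)‖) ∧
  (p.eval 0 ≠ 0 → ∃ c : ℝ, 0 < c ∧ ∃ s₀ : ℕ, ∀ s : ℕ, s₀ ≤ s → c ≤ ‖p.eval (((goldenConj : ℝ) : ℂ) ^ s)‖)

/-- NRM. PROOF. The norm of a nonzero integral `y` is a nonzero rational integer and is the product of the conjugates
(`Algebra.norm_eq_prod_automorphisms`, `Algebra.isIntegral_norm`, integrally closed). -/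
def S_NRM : Prop := ∀ (K : Type) [Field K] [NumberField K] [IsGalois ℚ K] (ι : K →+* ℂ) (y : K), IsIntegral ℤ y → y ≠ 0 →
  1 ≤ ∏ σ : K ≃ₐ[ℚ] K, ‖ι (σ y)‖

/-- DEN. PROOF. Every algebraic number has an integral multiple `N a` (`exists_integral_multiple` or
`IsAlgebraic.exists_integral_multiple`); take the product over the coefficients of `p`. The second part: a rational
number which is integral is an integer. -/
def S_DEN : Prop := ∀ (K : Type) [Field K] [NumberField K],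
  (∀ p : K[X], ∃ N : ℕ, 1 ≤ N ∧ ∀ y : K, IsIntegral ℤ y → IsIntegral ℤ ((N : K) * p.eval y)) ∧
  ∀ N g : ℕ, 1 ≤ g → IsIntegral ℤ ((N : K) / (g : K)) → g ∣ N

end Pool.Agent.H95.FA
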