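import Pool.Agent.H95.FA.Stm

/-!
# Project FA: the Subspace theorem for integers near Laurent polynomials in powers of the golden ratio
-/

set_option autoImplicit false

namespace Pool.Agent.H95.FA

open Finset Filter Topology
open NumberField IsDedekindDomain
open Pool.Agent.Y742.SF Pool.Agent.Y742.DI Pool.Agent.Y742.AR
open Pool.Agent.H95.FB
open Real (goldenRatio)

section core

variable {K : Type} [Field K] [NumberField K]

theorem ph_int {ph : K} (hph : ph ^ 2 = ph + 1) : IsIntegral ℤ ph := by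
  refine ⟨Polynomial.X ^ 2 - (Polynomial.X + 1), ?_, ?_⟩
  · monicity!
  · simp [hph]

theorem fv_ph {ph : K} (hph : ph ^ 2 = ph + 1) (w : HeightOneSpectrum (𝓞 K)) : fv w ph = 1 := by
  obtain ⟨u, hu⟩ : ∃ u : 𝓞 K, (u : K) = ph := ⟨⟨ph, ph_int hph⟩, rfl⟩
  obtain ⟨u', hu'⟩ : ∃ u : 𝓞 K, (u : K) = ph - 1 := ⟨⟨ph - 1, (ph_int hph).sub isIntegral_one⟩, rfl⟩
  have h1 := fv_int w u
  have h2 := fv_int w u'
  rw [hu] at h1
  rw [hu'] at h2
  have h3 : fv w ph * fv w (ph - 1) = 1 := by
    rw [← fv_mul, show ph * (ph - 1) = 1 by linear_combination hph, fv_one]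
  have h4 : 0 ≤ fv w ph := fv_nonneg _ _
  have h5 : 0 ≤ fv w (ph - 1) := fv_nonneg _ _
  nlinarith

variable [IsGalois ℚ K]

theorem sum_ph (D : PD K) {ph : K} (hph : ph ^ 2 = ph + 1) : ∑ v, Real.log (D.av v ph) = 0 := by
  obtain ⟨u, hu⟩ : ∃ u : 𝓞 K, (u : K) = ph := ⟨⟨ph, ph_int hph⟩, rfl⟩
  have h0 : u ≠ 0 := by
    rintro rfl
    have : ph = 0 := by
      rw [← hu]
      simp
    rw [this] at hph
    norm_num at hph
  have h1 := D.sum_av_unit u h0 (fun w _ => by rw [hu]; exact fv_ph hph w)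
  rw [hu] at h1
  exact h1


/-- the points -/
noncomputable def XX (ph : K) (N m s : ℕ) (x : ℤ) : Fin (m + 1) → K :=
  Fin.cons (x : K) (fun j : Fin m => ph ^ ((s : ℤ) * ((N : ℤ) - (j : ℕ))))

/-- the forms -/
noncomputable def FF {m : ℕ} (α : Fin m → K) : (K ≃ₐ[ℚ] K) ⊕ Fin (m + 1) → Fin (m + 1) → K
  | Sum.inl τ => Fin.cons 1 (fun j => -τ.symm (α j))
  | Sum.inr a => Pi.single a 1

omit [NumberField K] [IsGalois ℚ K] in
theorem det_row {m : ℕ} (r : Fin m → K) : (Matrix.of fun (a j : Fin (m + 1)) =>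
    (if a = 0 then (Fin.cons 1 r : Fin (m + 1) → K) else Pi.single a 1) j).det = 1 := by
  rw [Matrix.det_of_upperTriangular]
  · refine Finset.prod_eq_one fun i _ => ?_
    simp only [Matrix.of_apply]
    split_ifs with h
    · rw [h]
      rfl
    · simp
  · intro i j hij
    simp only [Matrix.of_apply]
    have h0 : i ≠ 0 := by
      rintro rfl
      exact absurd hij (Fin.not_lt_zero _)
    have h1 : j < i := hij
    rw [if_neg h0, Pi.single_apply, if_neg h1.ne]

theorem core (D : PD K) (ι : K →+* ℂ) {s5 ph : K} (h5 : 2 * ph = 1 + s5) (hph : ph ^ 2 = ph + 1)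
    {m : ℕ} (α : Fin m → K) (N J : ℕ) (hNJ : N < J) (C : ℝ) (hC : 1 ≤ C)
    (τ₀ : K ≃ₐ[ℚ] K) (hτ₀ : τ₀ s5 = -s5) {𝒰 : Ultrafilter ℕ} (s : ℕ → ℕ) (hs : Tendsto s (𝒰 : Filter ℕ) atTop)
    (x : ℕ → ℤ)
    (hne : ∀ t, (x t : K) - ∑ j : Fin m, α j * ph ^ ((s t : ℤ) * ((N : ℤ) - (j : ℕ))) ≠ 0)
    (hsm : ∀ t, ‖ι ((x t : K) - ∑ j : Fin m, α j * ph ^ ((s t : ℤ) * ((N : ℤ) - (j : ℕ))))‖ ≤
      C * (goldenRatio ^ (J * s t))⁻¹)
    (hbig : ∀ t, |(x t : ℝ)| ≤ C * goldenRatio ^ (N * s t))
    (hind : ∀ d : Fin (m + 1) → K, d ≠ 0 → ∀ᶠ t in (𝒰 : Filter ℕ), ∑ j, d j * XX ph N m (s t) (x t) j ≠ 0) :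
    False := by
  classical
  have hg0 : 0 < goldenRatio := Real.goldenRatio_pos
  have hg1 : 1 < goldenRatio := Real.one_lt_goldenRatio
  have hlg : 0 < Real.log goldenRatio := Real.log_pos hg1
  have hlC : 0 ≤ Real.log C := Real.log_nonneg hC
  have hph0 : ph ≠ 0 := by
    rintro rfl
    norm_num at hph
  have hs5 : s5 ^ 2 = 5 := by
    have e : s5 = 2 * ph - 1 := by linear_combination -h5
    rw [e]
    linear_combination 4 * hph
  obtain ⟨σ₀, hσ₀⟩ := exists_embs D.ψ ι
  obtain ⟨e⟩ : Nonempty (((K ≃ₐ[ℚ] K) ⊕ Fin (m + 1)) ≃ Fin (Fintype.card ((K ≃ₐ[ℚ] K) ⊕ Fin (m + 1)))) :=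
    ⟨Fintype.equivFin _⟩
  -- the selected embeddings
  obtain ⟨T, hT⟩ : ∃ T : (K ≃ₐ[ℚ] K) → (K ≃ₐ[ℚ] K), ∀ σ y, T σ y = σ₀.symm (σ y) :=
    ⟨fun σ => σ.trans σ₀.symm, fun σ y => rfl⟩
  have hav : ∀ σ y, D.av (Sum.inl σ) y = ‖ι (T σ y)‖ := by
    intro σ y
    rw [hT, hσ₀, AlgEquiv.apply_symm_apply]
    rfl
  obtain ⟨J', hJ'⟩ : ∃ J' : (K ≃ₐ[ℚ] K) ⊕ Fin D.s → Fin (m + 1) → ((K ≃ₐ[ℚ] K) ⊕ Fin (m + 1)),
      (∀ σ a, T σ s5 = s5 → J' (Sum.inl σ) a = if a = 0 then Sum.inl (T σ) else Sum.inr a) ∧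
      (∀ σ a, T σ s5 ≠ s5 → J' (Sum.inl σ) a = Sum.inr a) ∧ (∀ w a, J' (Sum.inr w) a = Sum.inr a) := by
    refine ⟨fun v a => match v with
      | Sum.inl σ => if T σ s5 = s5 then (if a = 0 then Sum.inl (T σ) else Sum.inr a) else Sum.inr a
      | Sum.inr w => Sum.inr a, ?_, ?_, ?_⟩
    · intro σ a h
      simp [h]
    · intro σ a h
      simp [h]
    · intro w a
      rfl
  obtain ⟨hJ1, hJ2, hJ3⟩ := hJ'
  have hdet : ∀ v, (Matrix.of fun a j => FF α (J' v a) j).det ≠ 0 := by
    intro v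
    have hid : (Matrix.of fun (a j : Fin (m + 1)) => (Pi.single a 1 : Fin (m + 1) → K) j).det = 1 := by
      have : (Matrix.of fun (a j : Fin (m + 1)) => (Pi.single a 1 : Fin (m + 1) → K) j) = 1 := by
        ext a j
        simp [Matrix.one_apply, Pi.single_apply, eq_comm]
      rw [this, Matrix.det_one]
    rcases v with σ | w
    · by_cases h : T σ s5 = s5
      · have h2 : (Matrix.of fun a j => FF α (J' (Sum.inl σ) a) j) = (Matrix.of fun (a j : Fin (m + 1)) =>
            (if a = 0 then (Fin.cons 1 (fun j => -(T σ).symm (α j)) : Fin (m + 1) → K) else Pi.single a 1) j) := by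
          ext a j
          simp only [Matrix.of_apply]
          rw [hJ1 σ a h]
          split_ifs <;> rfl
        rw [h2, det_row]
        exact one_ne_zero
      · have h2 : (Matrix.of fun a j => FF α (J' (Sum.inl σ) a) j) = (Matrix.of fun (a j : Fin (m + 1)) =>
            (Pi.single a 1 : Fin (m + 1) → K) j) := by
          ext a j
          simp only [Matrix.of_apply]
          rw [hJ2 σ a h]
          rfl
        rw [h2, hid]
        exact one_ne_zero
    · have h2 : (Matrix.of fun a j => FF α (J' (Sum.inr w) a) j) = (Matrix.of fun (a j : Fin (m + 1)) =>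
          (Pi.single a 1 : Fin (m + 1) → K) j) := by
        ext a j
        simp only [Matrix.of_apply]
        rw [hJ3 w a]
        rfl
      rw [h2, hid]
      exact one_ne_zero
  have hFne : ∀ i, FF α i ≠ 0 := by
    rintro (τ | a) h
    · have := congrFun h 0
      exact one_ne_zero this
    · have := congrFun h a
      simp [FF] at this
  have hN : Tendsto (fun t => (s t : ℝ) + 1) (𝒰 : Filter ℕ) atTop :=
    tendsto_atTop_add_const_right _ _ (tendsto_natCast_atTop_atTop.comp hs)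
  obtain ⟨L, hL⟩ : ∃ L : ℝ, L = ∑ v, |Real.log (D.av v ph)| := ⟨_, rfl⟩
  have hL0 : 0 ≤ L := by rw [hL]; exact Finset.sum_nonneg fun _ _ => abs_nonneg _
  have hxle : ∀ t, |(x t : ℝ)| ≤ Real.exp (Real.log C + N * Real.log goldenRatio * s t) := by
    intro t
    refine (hbig t).trans (le_of_eq ?_)
    rw [Real.exp_add, Real.exp_log (by linarith), ← Real.rpow_natCast, Real.rpow_def_of_pos hg0]
    congr 2
    push_cast
    ring
  have hB0 : ∀ t, 0 ≤ Real.log C + N * Real.log goldenRatio * s t := fun t => by positivity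
  have key := subS D (𝒰 : Filter ℕ) (n := m + 1) (by omega) (fun i => FF α (e.symm i)) (fun i => hFne _)
    (fun v a => e (J' v a)) (fun v => by simpa using hdet v) (fun t => (s t : ℝ) + 1) hN
    (fun t => XX ph N m (s t) (x t)) (Eventually.of_forall fun t j => by
      refine Fin.cases ?_ (fun j => ?_) j
      · exact fun w _ => fv_intCast w _
      · intro w _
        exact (fv_zpow_le (fv_ph hph w) _).le)
    (Real.log C + N * Real.log goldenRatio + (N + m) * L) (Eventually.of_forall fun t j v => by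
      refine Fin.cases ?_ (fun j => ?_) j
      · have h1 : Real.exp (Real.log C + N * Real.log goldenRatio * s t) ≤
            Real.exp ((Real.log C + N * Real.log goldenRatio + (N + m) * L) * (s t + 1)) := by
          refine Real.exp_le_exp.2 ?_
          have h2 : (0 : ℝ) ≤ s t := Nat.cast_nonneg _
          have h3 : 0 ≤ ((N : ℝ) + m) * L := by positivity
          have h4 : 0 ≤ (N : ℝ) * Real.log goldenRatio := by positivity
          nlinarith [mul_nonneg hlC h2, mul_nonneg h3 h2]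
        refine le_trans ?_ h1
        rcases v with σ | w
        · show ‖D.ψ (σ (x t : K))‖ ≤ _
          rw [map_intCast, map_intCast, Complex.norm_intCast]
          exact hxle t
        · refine (fv_intCast (D.P w) (x t)).trans ?_
          rw [Real.one_le_exp_iff]
          exact hB0 t
      · show D.av v (ph ^ ((s t : ℤ) * ((N : ℤ) - (j : ℕ)))) ≤ _
        rw [← Real.log_le_iff_le_exp (D.av_pos v _ (zpow_ne_zero _ hph0)), log_av_zpow v ph hph0]
        have h3 : |Real.log (D.av v ph)| ≤ L := by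
          rw [hL]
          exact Finset.single_le_sum (f := fun v => |Real.log (D.av v ph)|)
            (fun _ _ => abs_nonneg _) (Finset.mem_univ v)
        have h4 : |(((s t : ℤ) * ((N : ℤ) - (j : ℕ)) : ℤ) : ℝ)| ≤ s t * (N + m) := by
          push_cast
          rw [abs_mul, Nat.abs_cast]
          refine mul_le_mul_of_nonneg_left ?_ (Nat.cast_nonneg _)
          have h5 : ((j : ℕ) : ℝ) ≤ m := by exact_mod_cast j.2.le
          rw [abs_le]
          constructor
          · have : (0 : ℝ) ≤ N := Nat.cast_nonneg _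
            linarith
          · have : (0 : ℝ) ≤ (j : ℕ) := Nat.cast_nonneg _
            have : (0 : ℝ) ≤ m := Nat.cast_nonneg _
            linarith
        have h6 : (0 : ℝ) ≤ s t := Nat.cast_nonneg _
        calc (((s t : ℤ) * ((N : ℤ) - (j : ℕ)) : ℤ) : ℝ) * Real.log (D.av v ph)
            ≤ |(((s t : ℤ) * ((N : ℤ) - (j : ℕ)) : ℤ) : ℝ) * Real.log (D.av v ph)| := le_abs_self _
          _ = |(((s t : ℤ) * ((N : ℤ) - (j : ℕ)) : ℤ) : ℝ)| * |Real.log (D.av v ph)| := abs_mul _ _
          _ ≤ (s t * (N + m)) * L := mul_le_mul h4 h3 (abs_nonneg _) (by positivity)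
          _ ≤ _ := by
            have h7 : 0 ≤ (N : ℝ) * Real.log goldenRatio := by positivity
            have h8 : 0 ≤ ((N : ℝ) + m) * L := by positivity
            nlinarith [mul_nonneg hlC h6, mul_nonneg h7 h6])
    hind (Real.log goldenRatio / 2) (by positivity)
  simp only [Equiv.symm_apply_apply] at key
  -- the upper bound
  obtain ⟨h, hh⟩ : ∃ h : ℕ, h = (Finset.univ.filter fun σ : K ≃ₐ[ℚ] K => T σ s5 = s5).card := ⟨_, rfl⟩
  obtain ⟨h', hh'⟩ : ∃ h' : ℕ, h' = (Finset.univ.filter fun σ : K ≃ₐ[ℚ] K => ¬ T σ s5 = s5).card := ⟨_, rfl⟩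
  have hh1 : 1 ≤ h := by
    rw [hh]
    refine Finset.card_pos.2 ⟨σ₀, ?_⟩
    rw [Finset.mem_filter]
    exact ⟨Finset.mem_univ _, by rw [hT, AlgEquiv.symm_apply_apply]⟩
  have hhh : h' ≤ h := by
    rw [hh, hh']
    refine Finset.card_le_card_of_injOn (fun σ => τ₀.trans σ) ?_ ?_
    · intro σ hσ
      rw [Finset.mem_coe, Finset.mem_filter] at hσ ⊢
      refine ⟨Finset.mem_univ _, ?_⟩
      have h1 : (T σ s5 - s5) * (T σ s5 + s5) = 0 := by
        have h2 : (T σ s5) ^ 2 = 5 := by
          rw [← map_pow, hs5, map_ofNat]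
        linear_combination h2 - hs5
      have h2 : T σ s5 = -s5 := by
        rcases mul_eq_zero.1 h1 with h3 | h3
        · exact absurd (sub_eq_zero.1 h3) hσ.2
        · linear_combination h3
      have h3 : T (τ₀.trans σ) s5 = T σ (τ₀ s5) := by
        rw [hT, hT]
        rfl
      rw [h3, hτ₀, map_neg, h2, neg_neg]
    · intro σ _ σ' _ hσσ
      ext y
      have := congrArg (fun f : K ≃ₐ[ℚ] K => f (τ₀.symm y)) hσσ
      simpa using this
  have hub : ∀ t, ∑ v, ∑ a, Real.log (D.av v (∑ j, FF α (J' v a) j * XX ph N m (s t) (x t) j)) ≤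
      h * (2 * Real.log C - Real.log goldenRatio * s t) := by
    intro t
    have hsg : ∀ (v : (K ≃ₐ[ℚ] K) ⊕ Fin D.s) (j : Fin m), J' v j.succ = Sum.inr j.succ := by
      intro v j
      rcases v with σ | w
      · by_cases h : T σ s5 = s5
        · rw [hJ1 σ _ h, if_neg (Fin.succ_ne_zero j)]
        · rw [hJ2 σ _ h]
      · rw [hJ3]
    have hin : ∀ a, ∑ j, FF α (Sum.inr a) j * XX ph N m (s t) (x t) j = XX ph N m (s t) (x t) a := by
      intro a
      simp [FF, Pi.single_apply]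
    have h1 : ∀ v, ∑ a, Real.log (D.av v (∑ j, FF α (J' v a) j * XX ph N m (s t) (x t) j)) =
        Real.log (D.av v (∑ j, FF α (J' v 0) j * XX ph N m (s t) (x t) j)) +
          ∑ j : Fin m, (((s t : ℤ) * ((N : ℤ) - (j : ℕ)) : ℤ) : ℝ) * Real.log (D.av v ph) := by
      intro v
      rw [Fin.sum_univ_succ]
      congr 1
      refine Finset.sum_congr rfl fun j _ => ?_
      rw [hsg v j, hin]
      show Real.log (D.av v (ph ^ ((s t : ℤ) * ((N : ℤ) - (j : ℕ))))) = _
      rw [log_av_zpow v ph hph0]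
    rw [Finset.sum_congr rfl fun v _ => h1 v, Finset.sum_add_distrib, Finset.sum_comm]
    have h2 : ∑ j : Fin m, ∑ v, (((s t : ℤ) * ((N : ℤ) - (j : ℕ)) : ℤ) : ℝ) * Real.log (D.av v ph) = 0 := by
      refine Finset.sum_eq_zero fun j _ => ?_
      rw [← Finset.mul_sum, sum_ph D hph, mul_zero]
    rw [h2, add_zero, Fintype.sum_sum_type]
    have h3 : ∑ w : Fin D.s, Real.log (D.av (Sum.inr w) (∑ j, FF α (J' (Sum.inr w) 0) j * XX ph N m (s t) (x t) j)) ≤ 0 := by
      refine Finset.sum_nonpos fun w _ => ?_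
      rw [hJ3, hin]
      exact Real.log_nonpos (D.av_nonneg _ _) (fv_intCast (D.P w) (x t))
    have h4 : ∀ σ : K ≃ₐ[ℚ] K, Real.log (D.av (Sum.inl σ) (∑ j, FF α (J' (Sum.inl σ) 0) j * XX ph N m (s t) (x t) j)) ≤
        if T σ s5 = s5 then Real.log C - J * Real.log goldenRatio * s t else
          Real.log C + N * Real.log goldenRatio * s t := by
      intro σ
      split_ifs with h
      · rw [hJ1 σ _ h, if_pos rfl, hav]
        have e1 : T σ (∑ j, FF α (Sum.inl (T σ)) j * XX ph N m (s t) (x t) j) =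
            (x t : K) - ∑ j : Fin m, α j * ph ^ ((s t : ℤ) * ((N : ℤ) - (j : ℕ))) := by
          rw [Fin.sum_univ_succ, map_add, map_sum]
          have e2 : T σ (FF α (Sum.inl (T σ)) 0 * XX ph N m (s t) (x t) 0) = (x t : K) := by
            show T σ (1 * (x t : K)) = _
            rw [one_mul, map_intCast]
          have e3 : T σ ph = ph := by
            have h6 := congrArg (T σ) h5
            rw [map_mul, map_add, map_one, map_ofNat, h, ← h5] at h6
            exact mul_left_cancel₀ two_ne_zero h6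
          rw [e2, sub_eq_add_neg, ← Finset.sum_neg_distrib]
          congr 1
          refine Finset.sum_congr rfl fun j _ => ?_
          show T σ (-(T σ).symm (α j) * ph ^ ((s t : ℤ) * ((N : ℤ) - (j : ℕ)))) = _
          rw [map_mul, map_neg, AlgEquiv.apply_symm_apply, map_zpow₀, e3]
          ring
        rw [e1]
        have e4 : 0 < ‖ι ((x t : K) - ∑ j : Fin m, α j * ph ^ ((s t : ℤ) * ((N : ℤ) - (j : ℕ))))‖ :=
          norm_pos_iff.2 ((map_ne_zero ι).2 (hne t))
        refine (Real.log_le_log e4 (hsm t)).trans (le_of_eq ?_)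
        rw [Real.log_mul (by linarith) (by positivity), Real.log_inv, Real.log_pow]
        push_cast
        ring
      · rw [hJ2 σ _ h, hin, hav]
        show Real.log ‖ι (T σ (x t : K))‖ ≤ _
        rw [map_intCast, map_intCast, Complex.norm_intCast]
        rcases eq_or_ne (x t) 0 with h7 | h7
        · rw [h7]
          simpa using hB0 t
        · rw [Real.log_le_iff_le_exp (abs_pos.2 (by exact_mod_cast h7))]
          exact hxle t
    refine (add_le_add (Finset.sum_le_sum fun σ _ => h4 σ) h3).trans ?_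
    rw [add_zero, Finset.sum_ite, Finset.sum_const, Finset.sum_const, ← hh, ← hh', nsmul_eq_mul, nsmul_eq_mul]
    have h8 : (h' : ℝ) ≤ h := by exact_mod_cast hhh
    have h9 : (h' : ℝ) * (Real.log C + N * Real.log goldenRatio * s t) ≤
        h * (Real.log C + N * Real.log goldenRatio * s t) := mul_le_mul_of_nonneg_right h8 (hB0 t)
    have h10 : (N : ℝ) + 1 ≤ J := by exact_mod_cast hNJ
    have h11 : ((N : ℝ) + 1) * (Real.log goldenRatio * s t) ≤ J * (Real.log goldenRatio * s t) :=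
      mul_le_mul_of_nonneg_right h10 (by positivity)
    have h12 : (0 : ℝ) ≤ h := Nat.cast_nonneg _
    nlinarith [mul_le_mul_of_nonneg_left h11 h12]
  have hlarge : ∀ᶠ t in (𝒰 : Filter ℕ), 4 * Real.log C + Real.log goldenRatio + 1 ≤ Real.log goldenRatio * s t := by
    have h1 : Tendsto (fun t => Real.log goldenRatio * (s t : ℝ)) (𝒰 : Filter ℕ) atTop :=
      Tendsto.const_mul_atTop hlg (tendsto_natCast_atTop_atTop.comp hs)
    exact h1.eventually_ge_atTop _
  obtain ⟨t, ht1, ht2⟩ := (key.and hlarge).exists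
  have h1 := ht1.trans (hub t)
  have h2 : (1 : ℝ) ≤ h := by exact_mod_cast hh1
  nlinarith [mul_le_mul_of_nonneg_right h2 (show 0 ≤ Real.log goldenRatio * s t - 2 * Real.log C by linarith)]

end core

end Pool.Agent.H95.FA
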